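import Pool.Agent.P8H15.FG.Stm2

set_option autoImplicit false

/-!
# Project FG (helper15), package BINV: an identity of multiplicative functions
-/

namespace Pool.Agent.P8H54.FG

open Finset ArithmeticFunction
open scoped ArithmeticFunction.zeta
open Pool.Agent.P8H15.FG

/-- `bb k` as an arithmetic function -/
noncomputable def bF (k : ℕ) : ArithmeticFunction ℝ := ⟨bb k, by unfold bb; rw [if_pos rfl]⟩

/-- `1/n` as an arithmetic function -/
noncomputable def iF : ArithmeticFunction ℝ := ⟨fun n => (n : ℝ)⁻¹, by simp⟩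

lemma hh_zero : hh 0 = 0 := by
  unfold hh
  rw [if_neg]
  rintro ⟨h, -⟩
  exact not_squarefree_zero h

/-- `hh` on the numbers prime to `k` as an arithmetic function -/
noncomputable def hF (k : ℕ) : ArithmeticFunction ℝ :=
  ⟨fun n => if n.Coprime k then hh n else 0, by simp only [hh_zero, ite_self]⟩

lemma bF_apply (k n : ℕ) : bF k n = bb k n := rfl
lemma iF_apply (n : ℕ) : iF n = (n : ℝ)⁻¹ := rfl
lemma hF_apply (k n : ℕ) : hF k n = if n.Coprime k then hh n else 0 := rfl

lemma bF_mult (k : ℕ) : (bF k).IsMultiplicative := by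
  rw [IsMultiplicative.iff_ne_zero]
  refine ⟨?_, ?_⟩
  · rw [bF_apply]
    simp [bb]
  · intro m n hm hn hmn
    rw [bF_apply, bF_apply, bF_apply]
    unfold bb
    rw [if_neg (mul_ne_zero hm hn), if_neg hm, if_neg hn, hmn.primeFactors_mul,
      prod_union hmn.disjoint_primeFactors]
    congr 1
    · apply prod_congr rfl
      intro p hp
      rw [Nat.factorization_eq_of_coprime_left hmn (Nat.mem_primeFactors_iff_mem_primeFactorsList.1 hp)]
    · apply prod_congr rfl
      intro p hp
      rw [Nat.factorization_eq_of_coprime_right hmn (Nat.mem_primeFactors_iff_mem_primeFactorsList.1 hp)]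

lemma iF_mult : iF.IsMultiplicative := by
  refine ⟨?_, ?_⟩
  · rw [iF_apply]; simp
  · intro m n _
    rw [iF_apply, iF_apply, iF_apply, Nat.cast_mul, mul_inv]

lemma hF_mult (k : ℕ) : (hF k).IsMultiplicative := by
  rw [IsMultiplicative.iff_ne_zero]
  refine ⟨?_, ?_⟩
  · rw [hF_apply]
    simp [hh]
  · intro m n hm hn hmn
    rw [hF_apply, hF_apply, hF_apply]
    have h1 : (m * n).Coprime k ↔ m.Coprime k ∧ n.Coprime k := Nat.coprime_mul_iff_left
    have h2 : Squarefree (m * n) ↔ Squarefree m ∧ Squarefree n := Nat.squarefree_mul hmn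
    have h3 : Odd (m * n) ↔ Odd m ∧ Odd n := Nat.odd_mul
    by_cases c1 : m.Coprime k
    · by_cases c2 : n.Coprime k
      · rw [if_pos (h1.2 ⟨c1, c2⟩), if_pos c1, if_pos c2]
        unfold hh
        by_cases d1 : Squarefree m ∧ Odd m
        · by_cases d2 : Squarefree n ∧ Odd n
          · rw [if_pos ⟨h2.2 ⟨d1.1, d2.1⟩, h3.2 ⟨d1.2, d2.2⟩⟩, if_pos d1, if_pos d2, hmn.primeFactors_mul,
              prod_union hmn.disjoint_primeFactors]
          · rw [if_neg (fun h => d2 ⟨(h2.1 h.1).2, (h3.1 h.2).2⟩), if_neg d2, mul_zero]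
        · rw [if_neg (fun h => d1 ⟨(h2.1 h.1).1, (h3.1 h.2).1⟩), if_neg d1, zero_mul]
      · rw [if_neg (fun h => c2 (h1.1 h).2), if_neg c2, mul_zero]
    · rw [if_neg (fun h => c1 (h1.1 h).1), if_neg c1, zero_mul]

lemma bb_pow (k : ℕ) {p : ℕ} (hp : p.Prime) {i : ℕ} (hi : i ≠ 0) : bb k (p ^ i) = bp k p i := by
  unfold bb
  rw [if_neg (pow_ne_zero _ hp.ne_zero), Nat.primeFactors_prime_pow hi hp, prod_singleton]
  rw [hp.factorization_pow, Finsupp.single_eq_same]

lemma key (k : ℕ) (hk : Even k) : hF k = bF k * iF := by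
  refine (IsMultiplicative.eq_iff_eq_on_prime_powers _ (hF_mult k) _ ((bF_mult k).mul iF_mult)).2 fun p e hp => ?_
  have hp0 : (p : ℝ) ≠ 0 := by exact_mod_cast hp.ne_zero
  rcases Nat.eq_zero_or_pos e with rfl | he
  · rw [pow_zero, (hF_mult k).map_one, ((bF_mult k).mul iF_mult).map_one]
  have h1 : (bF k * iF) (p ^ e) = ∑ i ∈ range (e + 1), bb k (p ^ i) * ((p : ℝ) ^ (e - i))⁻¹ := by
    rw [ArithmeticFunction.mul_apply, Nat.sum_divisorsAntidiagonal (fun a b => bF k a * iF b),
      Nat.sum_divisors_prime_pow hp]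
    apply sum_congr rfl
    intro i hi
    rw [mem_range] at hi
    rw [bF_apply, iF_apply, Nat.pow_div (by omega) hp.pos, Nat.cast_pow]
  rw [h1, hF_apply]
  have hb1 : bb k 1 = 1 := by simp [bb]
  have hcop : (p ^ e).Coprime k ↔ ¬ p ∣ k := by
    rw [Nat.coprime_pow_left_iff he, hp.coprime_iff_not_dvd]
  -- for p not dividing k
  have hp2 : ¬ p ∣ k → p ≠ 2 := by
    rintro h rfl
    exact h hk.two_dvd
  rcases Nat.lt_or_ge e 2 with he2 | he2
  · have he1 : e = 1 := by omega
    subst he1
    rw [sum_range_succ, sum_range_one, pow_zero, hb1, bb_pow k hp one_ne_zero]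
    simp only [pow_one, Nat.sub_self, pow_zero, inv_one, mul_one, one_mul, Nat.sub_zero]
    rw [pow_one] at hcop
    unfold bp
    by_cases h : p ∣ k
    · rw [if_neg (fun h' => hcop.1 h' h), if_pos h, if_pos rfl]
      field_simp
      ring
    · rw [if_pos (hcop.2 h), if_neg h, if_pos rfl]
      have hodd : Odd p := hp.odd_of_ne_two (hp2 h)
      have h3 : (3 : ℝ) ≤ p := by
        have h4 : 3 ≤ p := by
          have := hp.two_le
          have := hp2 h
          omega
        exact_mod_cast h4
      have h5 : (p : ℝ) - 2 ≠ 0 := by linarith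
      unfold hh
      rw [if_pos ⟨hp.prime.squarefree, hodd⟩, hp.primeFactors, prod_singleton]
      field_simp
      ring
  · have hsub : ∑ i ∈ range (e + 1), bb k (p ^ i) * ((p : ℝ) ^ (e - i))⁻¹ =
        ∑ i ∈ range 3, bb k (p ^ i) * ((p : ℝ) ^ (e - i))⁻¹ := by
      symm
      apply sum_subset
      · intro i hi
        rw [mem_range] at hi ⊢
        omega
      · intro i _ hi
        rw [mem_range, not_lt] at hi
        rw [bb_pow k hp (by omega)]
        unfold bp
        rw [if_neg (show ¬ i = 1 by omega), if_neg (show ¬ i = 1 by omega), if_neg (show ¬ i = 2 by omega), ite_self,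
          zero_mul]
    have hh0 : (if (p ^ e).Coprime k then hh (p ^ e) else 0) = 0 := by
      have hsq : ¬ Squarefree (p ^ e) := by
        intro h
        have h2 := h p (by
          rw [← pow_two]
          exact pow_dvd_pow p he2)
        exact hp.one_lt.ne' (Nat.isUnit_iff.1 h2)
      have h0 : hh (p ^ e) = 0 := by
        unfold hh
        rw [if_neg (fun h => hsq h.1)]
      rw [h0, ite_self]
    rw [hsub, hh0, sum_range_succ, sum_range_succ, sum_range_one, pow_zero, hb1, bb_pow k hp one_ne_zero,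
      bb_pow k hp two_ne_zero]
    obtain ⟨m, rfl⟩ : ∃ m, e = m + 2 := ⟨e - 2, by omega⟩
    simp only [Nat.sub_zero, show m + 2 - 1 = m + 1 by omega, show m + 2 - 2 = m by omega]
    unfold bp
    by_cases h : p ∣ k
    · rw [if_pos h, if_pos rfl, if_pos h, if_neg (by norm_num)]
      field_simp
      ring
    · have h3 : (3 : ℝ) ≤ p := by
        have h4 : 3 ≤ p := by
          have := hp.two_le
          have := hp2 h
          omega
        exact_mod_cast h4
      have h5 : (p : ℝ) - 2 ≠ 0 := by linarith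
      rw [if_neg h, if_pos rfl, if_neg h, if_neg (by norm_num), if_pos rfl]
      field_simp
      ring

theorem binv : S_BINV := by
  intro k j _ hk _
  have h1 : ∑ d ∈ j.divisors.filter (fun d => d.Coprime k), hh d = (hF k * (ζ : ArithmeticFunction ℝ)) j := by
    rw [coe_mul_zeta_apply, sum_filter]
    rfl
  have h2 : ∀ n, sg1 n = (iF * (ζ : ArithmeticFunction ℝ)) n := by
    intro n
    rw [coe_mul_zeta_apply]
    unfold sg1
    apply sum_congr rfl
    intro m _
    rw [iF_apply, one_div]
  have h3 : ∑ q ∈ j.divisorsAntidiagonal, bb k q.1 * sg1 q.2 = (bF k * (iF * (ζ : ArithmeticFunction ℝ))) j := by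
    rw [ArithmeticFunction.mul_apply]
    apply sum_congr rfl
    intro q _
    rw [bF_apply, h2]
  rw [h1, h3, key k hk, mul_assoc]

end Pool.Agent.P8H54.FG
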